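import Pool.Agent.Helper2.TS.Spec

set_option autoImplicit false

/-!
Part DEC of mini swarm TS.
-/

namespace Pool.Agent.Helper95.TS.DEC

open Pool.Agent.Helper2.TS Pool.Agent.Helper20.EP UniqueFactorizationMonoid
open scoped NumberField

lemma two_le_absNorm {K : Type} [Field K] [NumberField K] {P : Ideal (𝓞 K)} (hP : P.IsPrime)
    (h0 : P ≠ ⊥) : 2 ≤ Ideal.absNorm P := by
  have h1 : Ideal.absNorm P ≠ 0 := by
    rw [Ne, Ideal.absNorm_eq_zero_iff]
    exact h0
  have h2 : Ideal.absNorm P ≠ 1 := by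
    rw [Ne, Ideal.absNorm_eq_one_iff]
    exact hP.ne_top
  omega

lemma main : S_DEC := by
  intro K _ _ Z J hZJ I hI hIZ
  classical
  have hIpos : 0 < Ideal.absNorm I := by
    rw [Nat.pos_iff_ne_zero, Ne, Ideal.absNorm_eq_zero_iff]
    exact hI
  have hmem : ∀ P ∈ normalizedFactors I, P.IsPrime ∧ P ≠ ⊥ ∧ Ideal.absNorm P ≤ Z := by
    intro P hP
    have hp := prime_of_normalized_factor P hP
    have hd : P ∣ I := dvd_of_mem_normalizedFactors hP
    refine ⟨Ideal.isPrime_of_prime hp, hp.ne_zero, ?_⟩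
    exact (Nat.le_of_dvd hIpos (Ideal.absNorm_dvd_absNorm_of_le (Ideal.dvd_iff_le.mp hd))).trans hIZ
  have hcount : ∀ P : Ideal (𝓞 K), P.IsPrime → P ≠ ⊥ → ∀ j : ℕ,
      (I ≤ P ^ j ↔ j ≤ (normalizedFactors I).count P) := by
    intro P hP h0 j
    have hp : Irreducible P := (Ideal.prime_of_isPrime h0 hP).irreducible
    rw [← Ideal.dvd_iff_le, pow_dvd_iff_le_emultiplicity,
      le_emultiplicity_iff_replicate_le_normalizedFactors hp hI, Multiset.le_count_iff_replicate_le,
      normalize_eq]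
  have hle : ∀ P : Ideal (𝓞 K), P.IsPrime → P ≠ ⊥ → (normalizedFactors I).count P ≤ J := by
    intro P hP h0
    have h1 := (hcount P hP h0 _).mpr le_rfl
    have h2 : Ideal.absNorm P ^ ((normalizedFactors I).count P) ≤ Ideal.absNorm I := by
      rw [← map_pow]
      exact Nat.le_of_dvd hIpos (Ideal.absNorm_dvd_absNorm_of_le h1)
    have h3 : 2 ^ ((normalizedFactors I).count P) < 2 ^ (J + 1) := by
      refine lt_of_le_of_lt (le_trans (Nat.pow_le_pow_left (two_le_absNorm hP h0) _) h2) ?_
      omega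
    have := (Nat.pow_lt_pow_iff_right (by norm_num : 1 < 2)).mp h3
    omega
  have hinner : ∀ P ∈ PP K Z, ∑ j ∈ Finset.Icc 1 J,
      (if I ≤ P ^ j then Real.log (Ideal.absNorm P : ℝ) else 0) =
      ((normalizedFactors I).count P : ℝ) * Real.log (Ideal.absNorm P : ℝ) := by
    intro P hP
    rw [mem_PP] at hP
    rw [← Finset.sum_filter, Finset.sum_const, nsmul_eq_mul]
    congr 2
    have e : (Finset.Icc 1 J).filter (fun j => I ≤ P ^ j) =
        Finset.Icc 1 ((normalizedFactors I).count P) := by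
      ext j
      rw [Finset.mem_filter, Finset.mem_Icc, Finset.mem_Icc, hcount P hP.1 hP.2.1]
      have := hle P hP.1 hP.2.1
      constructor
      · rintro ⟨⟨h1, _⟩, h2⟩; exact ⟨h1, h2⟩
      · rintro ⟨h1, h2⟩; exact ⟨⟨h1, h2.trans this⟩, h2⟩
    rw [e, Nat.card_Icc, Nat.add_sub_cancel]
  rw [Finset.sum_congr rfl hinner]
  have hsub : (normalizedFactors I).toFinset ⊆ PP K Z := by
    intro P hP
    rw [mem_PP]
    exact hmem P (Multiset.mem_toFinset.mp hP)
  rw [← Finset.sum_subset hsub]
  · have h1 : Ideal.absNorm I = ∏ P ∈ (normalizedFactors I).toFinset,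
        (Ideal.absNorm P) ^ ((normalizedFactors I).count P) := by
      conv_lhs => rw [← Ideal.prod_normalizedFactors_eq_self hI]
      rw [Finset.prod_multiset_count, map_prod]
      simp
    rw [h1]
    push_cast
    rw [Real.log_prod]
    · refine Finset.sum_congr rfl fun P _ => ?_
      rw [Real.log_pow]
    · intro P hP
      have h2 := hmem P (Multiset.mem_toFinset.mp hP)
      have := two_le_absNorm h2.1 h2.2.1
      positivity
  · intro P _ hP
    have : (normalizedFactors I).count P = 0 :=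
      Multiset.count_eq_zero.mpr (fun h => hP (Multiset.mem_toFinset.mpr h))
    rw [this]
    simp

end Pool.Agent.Helper95.TS.DEC
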