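import Pool.Agent.Helper95.TS.MPJ

set_option autoImplicit false

/-!
Part LHS of mini swarm TS.
-/

namespace Pool.Agent.Helper95.TS.LHS

open Pool.Agent.Helper2.TS Pool.Agent.Helper20.EP Polynomial
open Pool.Agent.Helper95.TS.MPJ (ev_le)
open scoped NumberField

lemma sum_exp_le (T : ℕ) : ∑ t ∈ Finset.range T, Real.exp (-(t : ℝ)) ≤ 2 := by
  refine le_trans (Finset.sum_le_sum fun t _ => ?_) (sum_geometric_two_le T)
  have h1 : Real.exp (-(t : ℝ)) = (Real.exp (-1)) ^ t := by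
    rw [← Real.exp_nat_mul]
    congr 1
    ring
  rw [h1]
  refine pow_le_pow_left₀ (Real.exp_pos _).le ?_ t
  rw [Real.exp_neg, one_div]
  refine inv_anti₀ (by norm_num) ?_
  have := Real.add_one_le_exp (1 : ℝ)
  linarith

/-- the layer cake for one root -/
lemma layer (hS : S_SMALL) {D X : ℕ} (hD : 1 ≤ D) (z : ℂ) {U : ℝ} (hU : 1 ≤ U)
    (B : Finset (Fin D → ℤ)) (hB : B ⊆ box D X)
    (hle : ∀ a ∈ B, ‖ev z a‖ ≤ U) (hpos : ∀ a ∈ B, 0 < ‖ev z a‖)
    (hlog : ∀ a ∈ B, Real.log U - Real.log ‖ev z a‖ ≤ D * Real.log U) :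
    ∑ a ∈ B, (Real.log U - Real.log ‖ev z a‖) ≤
      (2 * X + 1 : ℝ) ^ (D - 1) * (4 * U + (D * Real.log U + 1)) := by
  classical
  have hU0 : 0 < U := by linarith
  have hlU : 0 ≤ Real.log U := Real.log_nonneg hU
  set T : ℕ := ⌈(D : ℝ) * Real.log U⌉₊ with hT
  have h1 : ∀ a ∈ B, Real.log U - Real.log ‖ev z a‖ ≤
      ∑ t ∈ Finset.range T, (if ‖ev z a‖ ≤ Real.exp (-(t : ℝ)) * U then (1 : ℝ) else 0) := by
    intro a ha
    set u : ℝ := Real.log U - Real.log ‖ev z a‖ with hu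
    have hn : ⌈u⌉₊ ≤ T := Nat.ceil_le_ceil (hlog a ha)
    calc u ≤ (⌈u⌉₊ : ℝ) := Nat.le_ceil u
      _ = ∑ t ∈ Finset.range ⌈u⌉₊, (1 : ℝ) := by simp
      _ = ∑ t ∈ Finset.range ⌈u⌉₊,
          (if ‖ev z a‖ ≤ Real.exp (-(t : ℝ)) * U then (1 : ℝ) else 0) := by
        refine Finset.sum_congr rfl fun t ht => ?_
        have h2 : (t : ℝ) < u := Nat.lt_ceil.mp (Finset.mem_range.mp ht)
        have h3 : ‖ev z a‖ ≤ Real.exp (-(t : ℝ)) * U := by
          have h4 : Real.log ‖ev z a‖ ≤ -(t : ℝ) + Real.log U := by rw [hu] at h2; linarith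
          have h5 := Real.exp_le_exp.mpr h4
          rwa [Real.exp_add, Real.exp_log (hpos a ha), Real.exp_log hU0] at h5
        rw [if_pos h3]
      _ ≤ _ := by
        refine Finset.sum_le_sum_of_subset_of_nonneg (Finset.range_subset_range.mpr hn) ?_
        intro t _ _
        split_ifs <;> norm_num
  refine (Finset.sum_le_sum h1).trans ?_
  rw [Finset.sum_comm]
  have h2 : ∀ t ∈ Finset.range T,
      ∑ a ∈ B, (if ‖ev z a‖ ≤ Real.exp (-(t : ℝ)) * U then (1 : ℝ) else 0) ≤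
      (2 * X + 1 : ℝ) ^ (D - 1) * (2 * U * Real.exp (-(t : ℝ)) + 1) := by
    intro t _
    rw [Finset.sum_boole]
    have h3 := hS D z (Real.exp (-(t : ℝ)) * U) X hD (by positivity)
    have h4 : ((B.filter (fun a => ‖ev z a‖ ≤ Real.exp (-(t : ℝ)) * U)).card : ℝ) ≤
        (((box D X).filter (fun a => ‖ev z a‖ ≤ Real.exp (-(t : ℝ)) * U)).card : ℝ) := by
      exact_mod_cast Finset.card_le_card (Finset.filter_subset_filter _ hB)
    refine h4.trans (h3.trans (le_of_eq ?_))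
    ring
  refine (Finset.sum_le_sum h2).trans ?_
  rw [← Finset.mul_sum, Finset.sum_add_distrib, ← Finset.mul_sum]
  refine mul_le_mul_of_nonneg_left ?_ (by positivity)
  have h3 := sum_exp_le T
  have h4 : (T : ℝ) ≤ D * Real.log U + 1 := (Nat.ceil_lt_add_one (by positivity)).le
  have h5 : ∑ t ∈ Finset.range T, (1 : ℝ) = T := by simp
  rw [h5]
  have h6 : 2 * U * ∑ t ∈ Finset.range T, Real.exp (-(t : ℝ)) ≤ 2 * U * 2 :=
    mul_le_mul_of_nonneg_left h3 (by positivity)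
  linarith

lemma main (hKEX : S_KEX) (hNRM : S_NRM) (hSM : S_SMALL) : S_LHS := by
  intro D
  refine ⟨D + D ^ 2 * (D + 6), fun g H hg X hX => ?_⟩
  classical
  obtain ⟨K, _, _, θ, hG⟩ := hKEX g D H hg
  obtain ⟨hcard, hroots, hN⟩ := hNRM g D H hg
  obtain ⟨hnorm, hal, _, _⟩ := hN K θ hG
  have hD : 1 ≤ D := hg.one_le
  have hH := hg.two_le
  have hDr : (1 : ℝ) ≤ D := by exact_mod_cast hD
  have hXr : (1 : ℝ) ≤ X := by exact_mod_cast hX
  have hHD : (1 : ℝ) ≤ H ^ D := one_le_pow₀ (by linarith)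
  set U : ℝ := D * H ^ D * X with hUdef
  have hDH : (1 : ℝ) ≤ D * H ^ D := one_le_mul_of_one_le_of_one_le hDr hHD
  have hU : 1 ≤ U := one_le_mul_of_one_le_of_one_le hDH hXr
  have hU0 : 0 < U := by linarith
  have hlU : 0 ≤ Real.log U := Real.log_nonneg hU
  have hlUU : Real.log U ≤ U := (Real.log_le_sub_one_of_pos hU0).trans (by linarith)
  have hlX : Real.log X ≤ Real.log U := by
    apply Real.log_le_log (by linarith)
    rw [hUdef]
    exact le_mul_of_one_le_left (by linarith) hDH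
  set B := (box D X).erase 0 with hB
  -- bounds
  have hbox : ∀ a ∈ B, ∀ z ∈ rts g, ‖ev z a‖ ≤ U := by
    intro a ha z hz
    have h1 : ‖a‖ ≤ X := by
      rw [hB, Finset.mem_erase, mem_box] at ha
      rw [pi_norm_le_iff_of_nonneg (Nat.cast_nonneg X)]
      intro i
      rw [Int.norm_eq_abs]
      exact_mod_cast ha.2 i
    refine (ev_le hH (hg.roots z ((hroots z).mp hz)) a).trans ?_
    exact mul_le_mul_of_nonneg_left h1 (by positivity)
  have hprod : ∀ a ∈ B, 1 ≤ ∏ z ∈ rts g, ‖ev z a‖ := by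
    intro a ha
    rw [hB, Finset.mem_erase] at ha
    rw [← hnorm a]
    have h1 : Algebra.norm ℤ (al θ a) ≠ 0 := by
      rw [Ne, Algebra.norm_eq_zero_iff]
      exact hal a ha.1
    have h2 : 1 ≤ |Algebra.norm ℤ (al θ a)| := Int.one_le_abs h1
    exact_mod_cast h2
  have hpos : ∀ a ∈ B, ∀ z ∈ rts g, 0 < ‖ev z a‖ := by
    intro a ha z hz
    rcases (norm_nonneg (ev z a)).eq_or_lt with h | h
    · have h1 := hprod a ha
      rw [Finset.prod_eq_zero hz h.symm] at h1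
      norm_num at h1
    · exact h
  have hlow : ∀ a ∈ B, ∀ z ∈ rts g, Real.log U - Real.log ‖ev z a‖ ≤ D * Real.log U := by
    intro a ha z hz
    have h1 := hprod a ha
    rw [← Finset.mul_prod_erase _ _ hz] at h1
    have h2 : ∏ w ∈ (rts g).erase z, ‖ev w a‖ ≤ U ^ (D - 1) := by
      calc ∏ w ∈ (rts g).erase z, ‖ev w a‖ ≤ ∏ w ∈ (rts g).erase z, U :=
            Finset.prod_le_prod (fun _ _ => norm_nonneg _)
              fun w hw => hbox a ha w (Finset.mem_of_mem_erase hw)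
        _ = U ^ (D - 1) := by
            rw [Finset.prod_const, Finset.card_erase_of_mem hz, hcard]
    have h3 : 1 ≤ ‖ev z a‖ * U ^ (D - 1) :=
      h1.trans (mul_le_mul_of_nonneg_left h2 (norm_nonneg _))
    have h4 := Real.log_nonneg h3
    rw [Real.log_mul (hpos a ha z hz).ne' (by positivity), Real.log_pow] at h4
    have h5 : ((D - 1 : ℕ) : ℝ) = D - 1 := by
      rw [Nat.cast_sub hD]; simp
    rw [h5] at h4
    linarith
  -- the layer cake
  have hcake : ∀ z ∈ rts g, ∑ a ∈ B, (Real.log U - Real.log ‖ev z a‖) ≤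
      (2 * X + 1 : ℝ) ^ D * (D * (D + 5) * H ^ D) := by
    intro z hz
    have h1 := layer hSM hD z hU B (Finset.erase_subset _ _) (fun a ha => hbox a ha z hz)
      (fun a ha => hpos a ha z hz) (fun a ha => hlow a ha z hz)
    refine h1.trans ?_
    have h2 : 4 * U + (D * Real.log U + 1) ≤ (D + 5) * U := by
      have : (D : ℝ) * Real.log U ≤ D * U := mul_le_mul_of_nonneg_left hlUU (by linarith)
      linarith
    have h3 : (D + 5) * U ≤ (2 * X + 1 : ℝ) * (D * (D + 5) * H ^ D) := by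
      have h4 : (D + 5) * U = (X : ℝ) * (D * (D + 5) * H ^ D) := by rw [hUdef]; ring
      rw [h4]
      exact mul_le_mul_of_nonneg_right (by linarith) (by positivity)
    calc (2 * X + 1 : ℝ) ^ (D - 1) * (4 * U + (D * Real.log U + 1))
        ≤ (2 * X + 1 : ℝ) ^ (D - 1) * ((2 * X + 1 : ℝ) * (D * (D + 5) * H ^ D)) :=
          mul_le_mul_of_nonneg_left (h2.trans h3) (by positivity)
      _ = (2 * X + 1 : ℝ) ^ D * (D * (D + 5) * H ^ D) := by
          rw [← mul_assoc, ← pow_succ, Nat.sub_add_cancel hD]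
  -- the sum
  have hsum : ∑ a ∈ B, Real.log (∏ z ∈ rts g, ‖ev z a‖) =
      D * (B.card : ℝ) * Real.log U -
        ∑ z ∈ rts g, ∑ a ∈ B, (Real.log U - Real.log ‖ev z a‖) := by
    rw [Finset.sum_comm, ← sub_eq_zero]
    have h1 : D * (B.card : ℝ) * Real.log U = ∑ a ∈ B, (D : ℝ) * Real.log U := by
      rw [Finset.sum_const, nsmul_eq_mul]; ring
    rw [h1, ← Finset.sum_sub_distrib, ← Finset.sum_sub_distrib]
    refine Finset.sum_eq_zero fun a ha => ?_
    rw [Real.log_prod (fun z hz => (hpos a ha z hz).ne'), Finset.sum_sub_distrib,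
      Finset.sum_const, nsmul_eq_mul, hcard]
    ring
  rw [hsum]
  have hBcard : (B.card : ℝ) = (2 * X + 1 : ℝ) ^ D - 1 := by
    have h1 : (0 : Fin D → ℤ) ∈ box D X := by
      rw [mem_box]; intro i; simp
    rw [hB, Finset.card_erase_of_mem h1, box_card]
    have h2 : 1 ≤ (2 * X + 1) ^ D := Nat.one_le_pow _ _ (by omega)
    rw [Nat.cast_sub h2]
    push_cast
    ring
  have hS2 : ∑ z ∈ rts g, ∑ a ∈ B, (Real.log U - Real.log ‖ev z a‖) ≤
      D * ((2 * X + 1 : ℝ) ^ D * (D * (D + 5) * H ^ D)) := by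
    refine (Finset.sum_le_sum hcake).trans ?_
    rw [Finset.sum_const, nsmul_eq_mul, hcard]
  have hP1 : (1 : ℝ) ≤ (2 * X + 1 : ℝ) ^ D := one_le_pow₀ (by linarith)
  have hPX : (X : ℝ) ≤ (2 * X + 1 : ℝ) ^ D := by
    calc (X : ℝ) ≤ (2 * X + 1 : ℝ) := by linarith
      _ = (2 * X + 1 : ℝ) ^ 1 := (pow_one _).symm
      _ ≤ (2 * X + 1 : ℝ) ^ D := pow_le_pow_right₀ (by linarith) hD
  have hlU2 : Real.log U ≤ (2 * X + 1 : ℝ) ^ D * (D * H ^ D) := by
    refine hlUU.trans ?_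
    rw [hUdef]
    calc D * H ^ D * (X : ℝ) = X * (D * H ^ D) := by ring
      _ ≤ (2 * X + 1 : ℝ) ^ D * (D * H ^ D) := mul_le_mul_of_nonneg_right hPX (by linarith)
  have hC : (D : ℝ) ^ 2 * (D + 6) * H ^ D ≤ H ^ (D + D ^ 2 * (D + 6)) := by
    rw [pow_add, mul_comm]
    refine mul_le_mul_of_nonneg_left ?_ (by linarith)
    have h1 : ((D ^ 2 * (D + 6) : ℕ) : ℝ) ≤ 2 ^ (D ^ 2 * (D + 6)) := by
      exact_mod_cast (Nat.lt_two_pow_self).le
    push_cast at h1
    exact h1.trans (pow_le_pow_left₀ (by norm_num) hH _)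
  rw [hBcard]
  set P : ℝ := (2 * X + 1 : ℝ) ^ D with hP
  have hPl : P * (D * Real.log X) ≤ P * (D * Real.log U) :=
    mul_le_mul_of_nonneg_left (mul_le_mul_of_nonneg_left hlX (by linarith)) (by linarith)
  have hPC : P * ((D : ℝ) ^ 2 * (D + 6) * H ^ D) ≤ P * H ^ (D + D ^ 2 * (D + 6)) :=
    mul_le_mul_of_nonneg_left hC (by linarith)
  have hDl : (D : ℝ) * Real.log U ≤ D * (P * (D * H ^ D)) :=
    mul_le_mul_of_nonneg_left hlU2 (by linarith)
  nlinarith [hPl, hPC, hDl, hS2]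

end Pool.Agent.Helper95.TS.LHS
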