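import Pool.Agent.Helper2.TS.Spec

set_option autoImplicit false

/-!
Part MPJ of mini swarm TS.
-/

namespace Pool.Agent.Helper95.TS.MPJ

open Pool.Agent.Helper2.TS Pool.Agent.Helper20.EP Polynomial
open scoped NumberField

lemma ev_le {D : ℕ} {H : ℝ} (hH : 2 ≤ H) {z : ℂ} (hz : ‖z‖ ≤ H) (a : Fin D → ℤ) :
    ‖ev z a‖ ≤ D * H ^ D * ‖a‖ := by
  unfold ev
  refine (norm_sum_le _ _).trans ?_
  have h1 : ∀ i ∈ (Finset.univ : Finset (Fin D)), ‖(a i : ℂ) * z ^ (i : ℕ)‖ ≤ H ^ D * ‖a‖ := by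
    intro i _
    rw [norm_mul, norm_pow, Complex.norm_intCast]
    have h2 : |((a i : ℤ) : ℝ)| ≤ ‖a‖ := by
      rw [← Int.norm_eq_abs]
      exact norm_le_pi_norm a i
    have h3 : ‖z‖ ^ (i : ℕ) ≤ H ^ D :=
      (pow_le_pow_left₀ (norm_nonneg _) hz _).trans
        (pow_le_pow_right₀ (by linarith) i.isLt.le)
    calc |((a i : ℤ) : ℝ)| * ‖z‖ ^ (i : ℕ) ≤ ‖a‖ * H ^ D :=
          mul_le_mul h2 h3 (by positivity) (norm_nonneg _)
      _ = H ^ D * ‖a‖ := mul_comm _ _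
  refine (Finset.sum_le_sum h1).trans ?_
  rw [Finset.sum_const, nsmul_eq_mul, Finset.card_univ, Fintype.card_fin]
  exact le_of_eq (by ring)

lemma al_sub {K : Type} [Field K] [NumberField K] (θ : 𝓞 K) {D : ℕ} (a b : Fin D → ℤ) :
    al θ (a - b) = al θ a - al θ b := by
  unfold al
  rw [← Finset.sum_sub_distrib]
  refine Finset.sum_congr rfl fun i _ => ?_
  simp [sub_mul]

lemma main (hNRM : S_NRM) : S_MPJ := by
  intro g D H hg K _ _ θ hG I hI X
  obtain ⟨hcard, hroots, hN⟩ := hNRM g D H hg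
  obtain ⟨hnorm, hal, _, _⟩ := hN K θ hG
  have hD : 1 ≤ D := hg.one_le
  have hH := hg.two_le
  have hDr : (0 : ℝ) < D := by exact_mod_cast hD
  have hNpos : 0 < Ideal.absNorm I := by
    rw [Nat.pos_iff_ne_zero, Ne, Ideal.absNorm_eq_zero_iff]
    exact hI
  have hNr : (0 : ℝ) < (Ideal.absNorm I : ℝ) := by exact_mod_cast hNpos
  have hHD : (0 : ℝ) < H ^ D := by positivity
  set δ : ℝ := (Ideal.absNorm I : ℝ) ^ (1 / (D : ℝ)) / (D * H ^ D) with hδ
  have hδ0 : 0 < δ := by positivity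
  have hδD : (D * H ^ D * δ) ^ D = (Ideal.absNorm I : ℝ) := by
    have : (D : ℝ) * H ^ D * δ = (Ideal.absNorm I : ℝ) ^ (1 / (D : ℝ)) := by
      rw [hδ]; field_simp
    rw [this, ← Real.rpow_natCast, ← Real.rpow_mul hNr.le]
    rw [one_div_mul_cancel hDr.ne', Real.rpow_one]
  -- nonzero elements of the ideal are large
  have hbig : ∀ a : Fin D → ℤ, a ≠ 0 → al θ a ∈ I → δ ≤ ‖a‖ := by
    intro a ha haI
    by_contra hlt
    push Not at hlt
    have h1 : Algebra.norm ℤ (al θ a) ≠ 0 := by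
      rw [Ne, Algebra.norm_eq_zero_iff]
      exact hal a ha
    have h2 : (Ideal.absNorm I : ℤ) ∣ Algebra.norm ℤ (al θ a) :=
      Ideal.absNorm_dvd_norm_of_mem haI
    have h3 : (Ideal.absNorm I : ℝ) ≤ |((Algebra.norm ℤ (al θ a) : ℤ) : ℝ)| := by
      have h4 : (Ideal.absNorm I : ℤ) ≤ |Algebra.norm ℤ (al θ a)| :=
        Int.le_of_dvd (abs_pos.mpr h1) ((dvd_abs _ _).mpr h2)
      exact_mod_cast h4
    rw [hnorm a] at h3
    have h5 : ∏ z ∈ rts g, ‖ev z a‖ ≤ (D * H ^ D * ‖a‖) ^ D := by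
      calc ∏ z ∈ rts g, ‖ev z a‖ ≤ ∏ z ∈ rts g, (D * H ^ D * ‖a‖) :=
            Finset.prod_le_prod (fun _ _ => norm_nonneg _) fun z hz =>
              ev_le hH (hg.roots z ((hroots z).mp hz)) a
        _ = (D * H ^ D * ‖a‖) ^ D := by rw [Finset.prod_const, hcard]
    have h6 : (D * H ^ D * ‖a‖) ^ D < (D * H ^ D * δ) ^ D := by
      refine pow_lt_pow_left₀ ?_ (by positivity) (by omega)
      exact mul_lt_mul_of_pos_left hlt (by positivity)
    rw [hδD] at h6
    linarith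
  classical
  set A := ((box D X).erase 0).filter (fun a => al θ a ∈ I) with hA
  have hnormX : ∀ a ∈ A, ‖a‖ ≤ X := by
    intro a ha
    rw [hA, Finset.mem_filter, Finset.mem_erase, mem_box] at ha
    rw [pi_norm_le_iff_of_nonneg (Nat.cast_nonneg X)]
    intro i
    rw [Int.norm_eq_abs]
    exact_mod_cast ha.1.2 i
  have hRHS : (4 * (X : ℝ) * D * H ^ D) ^ D / (Ideal.absNorm I : ℝ) = (4 * X / δ) ^ D := by
    rw [← hδD, ← div_pow]
    congr 1
    field_simp
  rw [hRHS]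
  rcases le_or_gt δ (X : ℝ) with hle | hgt
  · -- the injection
    have hcardA : (A.card : ℝ) ≤ (((Finset.Icc ⌊-(X : ℝ) / δ⌋ ⌊(X : ℝ) / δ⌋).card : ℕ) : ℝ) ^ D := by
      have h1 : A.card ≤ (Fintype.piFinset
          (fun _ : Fin D => Finset.Icc ⌊-(X : ℝ) / δ⌋ ⌊(X : ℝ) / δ⌋)).card := by
        refine Finset.card_le_card_of_injOn (fun a i => ⌊(a i : ℝ) / δ⌋) ?_ ?_
        · intro a ha
          rw [Finset.mem_coe] at ha
          have h2 := hnormX a ha
          rw [Finset.mem_coe, Fintype.mem_piFinset]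
          intro i
          have h3 : |((a i : ℤ) : ℝ)| ≤ X := by
            rw [← Int.norm_eq_abs]
            exact (norm_le_pi_norm a i).trans h2
          rw [abs_le] at h3
          rw [Finset.mem_Icc]
          exact ⟨Int.floor_le_floor (div_le_div_of_nonneg_right h3.1 hδ0.le),
            Int.floor_le_floor (div_le_div_of_nonneg_right h3.2 hδ0.le)⟩
        · intro a ha b hb hab
          by_contra hne
          rw [Finset.mem_coe, hA, Finset.mem_filter] at ha hb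
          have h4 := hbig (a - b) (sub_ne_zero.mpr hne) (by
            rw [al_sub]; exact I.sub_mem ha.2 hb.2)
          apply absurd h4
          rw [not_le, pi_norm_lt_iff hδ0]
          intro i
          have h5 : ⌊(a i : ℝ) / δ⌋ = ⌊(b i : ℝ) / δ⌋ := congrFun hab i
          have h6 := Int.abs_sub_lt_one_of_floor_eq_floor h5
          rw [← sub_div, abs_div, abs_of_pos hδ0, div_lt_one hδ0] at h6
          rw [Int.norm_eq_abs]
          simpa using h6
      rw [Fintype.card_piFinset] at h1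
      simp only [Finset.prod_const, Finset.card_univ, Fintype.card_fin] at h1
      exact_mod_cast h1
    refine hcardA.trans (pow_le_pow_left₀ (Nat.cast_nonneg _) ?_ D)
    rw [Int.card_Icc]
    have h1 : (⌊(X : ℝ) / δ⌋ : ℝ) ≤ X / δ := Int.floor_le _
    have h2 : -(X : ℝ) / δ - 1 < ⌊-(X : ℝ) / δ⌋ := Int.sub_one_lt_floor _
    have h3 : 1 ≤ (X : ℝ) / δ := (one_le_div hδ0).mpr hle
    have h4 : (0 : ℤ) ≤ ⌊(X : ℝ) / δ⌋ + 1 - ⌊-(X : ℝ) / δ⌋ := by
      have h5 : ⌊-(X : ℝ) / δ⌋ ≤ ⌊(X : ℝ) / δ⌋ := by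
        apply Int.floor_le_floor
        apply div_le_div_of_nonneg_right _ hδ0.le
        have : (0 : ℝ) ≤ X := Nat.cast_nonneg X
        linarith
      omega
    have e : (((⌊(X : ℝ) / δ⌋ + 1 - ⌊-(X : ℝ) / δ⌋).toNat : ℕ) : ℝ) =
        ((⌊(X : ℝ) / δ⌋ + 1 - ⌊-(X : ℝ) / δ⌋ : ℤ) : ℝ) := by
      rw [← Int.cast_natCast, Int.toNat_of_nonneg h4]
    rw [e]
    push_cast
    have h6 : -(X : ℝ) / δ = -(X / δ) := by ring
    have h7 : 4 * (X : ℝ) / δ = 4 * (X / δ) := by ring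
    rw [h6] at h2 ⊢
    rw [h7]
    linarith
  · have hAe : A = ∅ := by
      rw [Finset.eq_empty_iff_forall_notMem]
      intro a ha
      have h1 := hnormX a ha
      rw [hA, Finset.mem_filter, Finset.mem_erase] at ha
      have h2 := hbig a ha.1.1 ha.2
      linarith
    rw [hAe, Finset.card_empty, Nat.cast_zero]
    positivity

end Pool.Agent.Helper95.TS.MPJ
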