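import Pool.Agent.Helper2.TS.Spec

set_option autoImplicit false

/-!
Part SMALL of mini swarm TS.
-/

namespace Pool.Agent.Helper95.TS.SMALL

open Pool.Agent.Helper2.TS Pool.Agent.Helper20.EP

lemma card_Icc_le (c s : ℝ) (hs : 0 ≤ s) :
    ((Finset.Icc ⌈-c - s⌉ ⌊-c + s⌋).card : ℝ) ≤ 2 * s + 1 := by
  rw [Int.card_Icc]
  have h1 : -c - s ≤ ⌈-c - s⌉ := Int.le_ceil _
  have h2 : (⌊-c + s⌋ : ℝ) ≤ -c + s := Int.floor_le _
  rcases le_or_gt 0 (⌊-c + s⌋ + 1 - ⌈-c - s⌉) with h | h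
  · have e : (((⌊-c + s⌋ + 1 - ⌈-c - s⌉).toNat : ℕ) : ℝ) = ((⌊-c + s⌋ + 1 - ⌈-c - s⌉ : ℤ) : ℝ) := by
      rw [← Int.cast_natCast, Int.toNat_of_nonneg h]
    rw [e]
    push_cast
    linarith
  · rw [Int.toNat_of_nonpos h.le]
    simp
    linarith

lemma main : S_SMALL := by
  intro D z s X hD hs
  obtain ⟨E, rfl⟩ : ∃ E, D = E + 1 := ⟨D - 1, by omega⟩
  rw [Nat.add_sub_cancel]
  classical
  have hmap : ∀ a ∈ (box (E + 1) X).filter (fun a => ‖ev z a‖ ≤ s),
      (Fin.tail a) ∈ box E X := by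
    intro a ha
    rw [Finset.mem_filter, mem_box] at ha
    rw [mem_box]
    intro i
    exact ha.1 i.succ
  rw [Finset.card_eq_sum_card_fiberwise hmap]
  push_cast
  have hfib : ∀ b ∈ box E X, ((((box (E + 1) X).filter (fun a => ‖ev z a‖ ≤ s)).filter
      (fun a => Fin.tail a = b)).card : ℝ) ≤ 2 * s + 1 := by
    intro b _
    set c : ℝ := (∑ i : Fin E, (b i : ℂ) * z ^ ((i : ℕ) + 1)).re with hc
    refine le_trans ?_ (card_Icc_le c s hs)
    norm_cast
    refine Finset.card_le_card_of_injOn (fun a => a 0) ?_ ?_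
    · intro a ha
      rw [Finset.mem_coe, Finset.mem_filter, Finset.mem_filter] at ha
      obtain ⟨⟨_, h1⟩, h2⟩ := ha
      have h3 : (ev z a).re = (a 0 : ℝ) + c := by
        unfold ev
        rw [Fin.sum_univ_succ, hc, ← h2]
        simp [Fin.tail]
      have h4 : |(a 0 : ℝ) + c| ≤ s := by
        rw [← h3]
        exact (Complex.abs_re_le_norm _).trans h1
      rw [abs_le] at h4
      rw [Finset.mem_coe, Finset.mem_Icc, Int.ceil_le, Int.le_floor]
      constructor <;> linarith [h4.1, h4.2]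
    · intro a ha a' ha' h
      rw [Finset.mem_coe, Finset.mem_filter] at ha ha'
      have h2 : Fin.tail a = Fin.tail a' := ha.2.trans ha'.2.symm
      rw [← Fin.cons_self_tail a, ← Fin.cons_self_tail a', h2]
      simp only at h
      rw [h]
  refine (Finset.sum_le_sum hfib).trans ?_
  rw [Finset.sum_const, nsmul_eq_mul, box_card]
  push_cast
  exact le_rfl

end Pool.Agent.Helper95.TS.SMALL
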